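import Pool.Agent.TH268.PD.Large

set_option autoImplicit false

namespace Pool.Agent.TH268.Old.MacroscopicCyclesLaw

open Finset Equiv

/-- The sum over all unordered pairs of the rates. -/
noncomputable def totalRate {V : Type} [Fintype V] (J : V → V → ℝ) : ℝ := ∑ x, ∑ y, J x y / 2

/-- The probability that random stirring started at the identity, with an independent Poisson clock
of rate `J x y` for every unordered pair `{x, y}` (`J` symmetric; in general `(J x y + J y x) / 2`),
is at the permutation `g` at time `t`: there are `n` rings up to time `t` with probability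
`exp (-R t) (R t)^n / n!`, `R` the total rate, and each ring is a ring of the ordered pair `(x, y)`
with probability `J x y / (2 R)`. -/
noncomputable def stirLaw {V : Type} [Fintype V] [DecidableEq V] (J : V → V → ℝ) (t : ℝ)
    (g : Perm V) : ℝ :=
  ∑' n : ℕ, Real.exp (-(t * totalRate J)) * t ^ n / (n.factorial : ℝ) *
    ∑ w : Fin n → V × V, (∏ i, J (w i).1 (w i).2 / 2) *
      (if (List.ofFn fun i => swap (w i).1 (w i).2).prod = g then 1 else 0)

/-- The expectation of `F` under random stirring at time `t`. -/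
noncomputable def stirExp {V : Type} [Fintype V] [DecidableEq V] (J : V → V → ℝ) (t : ℝ)
    (F : Perm V → ℝ) : ℝ := ∑ g, stirLaw J t g * F g

/-- Length of the cycle of `g` through `v`. -/
noncomputable def cycleLen {V : Type} [Fintype V] (g : Perm V) (v : V) : ℕ :=
  Nat.card {w : V // g.SameCycle v w}

/-- The permutation `g` induces the permutation `π` on the (indices of the) points `b 0, b 1, ...`:
the first of these points which is met when one iterates `g` from `b i` is `b (π i)`. -/
def Induces {V : Type} {k : ℕ} (g : Perm V) (b : Fin k → V) (π : Perm (Fin k)) : Prop :=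
  ∀ i, ∃ n : ℕ, 1 ≤ n ∧ (g ^ n) (b i) = b (π i) ∧
    ∀ p, 1 ≤ p → p < n → (g ^ p) (b i) ∉ Set.range b

/-- The probability that `k` independent uniform points are different, all lie in cycles of `g` that
contain at least the fraction `δ` of all the points, and that `g` induces `π` on them. -/
noncomputable def inducedProb {V : Type} [Fintype V] (k : ℕ) (δ : ℝ) (π : Perm (Fin k))
    (g : Perm V) : ℝ :=
  (Nat.card {b : Fin k → V // Function.Injective b ∧
    (∀ i, δ * Fintype.card V ≤ cycleLen g (b i)) ∧ Induces g b π} : ℝ) /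
      (Fintype.card V : ℝ) ^ k

/-- The probability that `k` independent uniform points are different and all lie in cycles of `g`
that contain at least the fraction `δ` of all the points. -/
noncomputable def longProb {V : Type} [Fintype V] (k : ℕ) (δ : ℝ) (g : Perm V) : ℝ :=
  (Nat.card {b : Fin k → V // Function.Injective b ∧
    ∀ i, δ * Fintype.card V ≤ cycleLen g (b i)} : ℝ) / (Fintype.card V : ℝ) ^ k

/-- Sup-distance in the box `{0, ..., L - 1}^d`. It is at least the distance on the torus. -/
def boxDist {d L : ℕ} (x y : Fin d → ZMod L) : ℕ :=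
  univ.sup fun a => (((x a).val : ℤ) - (y a).val).natAbs

/-- Symmetric rates that are at least `lam * distance ^ (-(d + σ))`; otherwise arbitrary. Since
`boxDist` is at least the distance on the torus, the condition with the latter is stronger. -/
def Rates (d L : ℕ) (σ lam : ℝ) (J : (Fin d → ZMod L) → (Fin d → ZMod L) → ℝ) : Prop :=
  (∀ x y, J x y = J y x) ∧ (∀ x, J x x = 0) ∧
    ∀ x y, x ≠ y → lam * (boxDist x y : ℝ) ^ (-((d : ℝ) + σ)) ≤ J x y

section bridge

variable {V : Type} [Fintype V] [DecidableEq V]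

theorem len_eq (g : Perm V) (v : V) : Pool.Agent.W805.LR.len g v = (cycleLen g v : ℝ) := by
  classical
  unfold Pool.Agent.W805.LR.len cycleLen
  rw [Pool.Agent.W805.LR.cnt_eq, Nat.card_eq_fintype_card, Fintype.card_subtype, Finset.sum_boole]

theorem induced_eq (k : ℕ) (δ : ℝ) (π : Perm (Fin k)) (g : Perm V) :
    inducedProb k δ π g = Pool.Agent.TH268.PD.nTup k (δ * Fintype.card V) g π /
      (Fintype.card V : ℝ) ^ k := by
  unfold inducedProb Pool.Agent.TH268.PD.nTup
  simp only [len_eq]
  rfl

theorem long_eq (k : ℕ) (δ : ℝ) (g : Perm V) :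
    longProb k δ g = Pool.Agent.TH268.PD.nAll k (δ * Fintype.card V) g /
      (Fintype.card V : ℝ) ^ k := by
  unfold longProb Pool.Agent.TH268.PD.nAll
  simp only [len_eq]

theorem stir_eq (J : V → V → ℝ) (t : ℝ) (F : Perm V → ℝ) :
    stirExp J t F = ∑ g, Pool.Agent.TH268.PD.law J t g * F g := by
  have hlaw : ∀ g, stirLaw J t g = Real.exp (-(t * totalRate J)) *
      Pool.Agent.W805.LR.stirMass J t g := fun g => Pool.Agent.W805.LR.series_eq J t g
  have hsum : ∑ g, Pool.Agent.W805.LR.stirMass J t g = Real.exp (t * totalRate J) :=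
    Pool.Agent.W805.LR.sum_mass J t
  unfold stirExp Pool.Agent.TH268.PD.law
  rw [hsum]
  refine Finset.sum_congr rfl fun g _ => ?_
  rw [hlaw, Real.exp_neg, div_eq_inv_mul]

end bridge

/-- Random stirring (the interchange process) started at the identity on a finite set with `N`
points, with arbitrary rates that are at least `κ` for every pair of different points. Sample `k`
points. For large `N` and `t κ N²` there is a small scale `δ ∈ [δ₁, η]` such that, given that the
`k` points are in cycles with at least `δ N` points, the permutation that the stirring induces on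
them is uniformly distributed on all the `k!` permutations, up to an error `η` in probability.
The number `t κ N²` may be small compared with `N`: for instance nearest neighbour stirring on the
torus with a bounded but large mean number of additional uniform transpositions is covered.
In the long range model on the torus of side `L`, with rates at least
`lam * distance ^ (-(d + σ))`, `0 < σ < d`, this holds for every `t > 0` and large `L`; and for
large times the induced permutation is uniform on all the permutations without any condition. -/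
theorem result (k : ℕ) (η : ℝ) (hη : 0 < η) :
    (∃ δ₁ > 0, ∃ C : ℝ, 0 < C ∧ ∀ (V : Type) [Fintype V] [DecidableEq V] (J : V → V → ℝ) (κ t : ℝ),
      0 < t → 0 < κ → (∀ x y, x ≠ y → κ ≤ J x y) → (∀ x, J x x = 0) →
      C ≤ Fintype.card V → C ≤ t * κ * (Fintype.card V : ℝ) ^ 2 →
        ∃ δ, δ₁ ≤ δ ∧ δ ≤ η ∧ ∀ π : Perm (Fin k),
          |stirExp J t (inducedProb k δ π) - stirExp J t (longProb k δ) / k.factorial| ≤ η) ∧
    (∃ δ₁ > 0, ∀ (d : ℕ) (σ lam t : ℝ), 1 ≤ d → 0 < σ → σ < d → 0 < lam → 0 < t →
      ∃ L₀ : ℕ, ∀ (L : ℕ) [NeZero L], L₀ ≤ L →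
        ∀ J : (Fin d → ZMod L) → (Fin d → ZMod L) → ℝ, Rates d L σ lam J →
          ∃ δ, δ₁ ≤ δ ∧ δ ≤ η ∧ ∀ π : Perm (Fin k),
            |stirExp J t (inducedProb k δ π) - stirExp J t (longProb k δ) / k.factorial| ≤ η) ∧
    (∀ (d : ℕ) (σ lam : ℝ), 1 ≤ d → 0 < σ → σ < d → 0 < lam →
      ∃ t₁ > 0, ∀ t ≥ t₁, ∃ L₀ : ℕ, ∀ (L : ℕ) [NeZero L], L₀ ≤ L →
        ∀ J : (Fin d → ZMod L) → (Fin d → ZMod L) → ℝ, Rates d L σ lam J →
          ∀ π : Perm (Fin k), |stirExp J t (inducedProb k 0 π) - 1 / k.factorial| ≤ η) := by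
  classical
  have hfirst : ∀ η : ℝ, 0 < η → ∃ δ₁ > 0, ∃ C : ℝ, 0 < C ∧ ∀ (V : Type) [Fintype V] [DecidableEq V]
      (J : V → V → ℝ) (κ t : ℝ),
      0 < t → 0 < κ → (∀ x y, x ≠ y → κ ≤ J x y) → (∀ x, J x x = 0) →
      C ≤ Fintype.card V → C ≤ t * κ * (Fintype.card V : ℝ) ^ 2 →
        ∃ δ, δ₁ ≤ δ ∧ δ ≤ η ∧ ∀ π : Perm (Fin k),
          |stirExp J t (inducedProb k δ π) - stirExp J t (longProb k δ) / k.factorial| ≤ η := by
    intro η hη
    obtain ⟨δ₁, hδ₁, C, hC, H⟩ := Pool.Agent.TH268.PD.stir_core k η hη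
    refine ⟨δ₁, hδ₁, C, hC, fun V _ _ J κ t ht hκ h1 h2 h3 h4 => ?_⟩
    obtain ⟨δ, h5, h6, h7⟩ := H V J κ t ht hκ h1 h2 h3 h4
    refine ⟨δ, h5, h6, fun π => ?_⟩
    have h8 := h7 π
    rw [Pool.Agent.TH268.PD.LL_sum, Pool.Agent.TH268.PD.LL_eq] at h8
    rw [stir_eq, stir_eq]
    simp only [induced_eq, long_eq]
    exact h8
  refine ⟨hfirst η hη, ?_, ?_⟩
  · obtain ⟨δ₁, hδ₁, C, hC, H⟩ := hfirst η hη
    refine ⟨δ₁, hδ₁, fun d σ lam t hd hσ hσd hlam ht => ?_⟩
    obtain ⟨L0, hL0⟩ := Pool.Agent.TH268.PD.far_rate d σ lam t C hd hσ hσd hlam ht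
    refine ⟨L0, fun L _ hL J hJ => ?_⟩
    obtain ⟨κ, hκ, h1, h2, h3⟩ := hL0 L hL J hJ
    exact H _ J κ t ht hκ h1 hJ.2.1 h3 h2
  · intro d σ lam hd hσ hσd hlam
    obtain ⟨θ, hθ⟩ : ∃ θ : ℝ, θ = η / (4 * (k + 1)) := ⟨_, rfl⟩
    have hθ0 : 0 < θ := by rw [hθ]; positivity
    obtain ⟨t₁, ht₁, ε, hε, hlarge⟩ := Pool.Agent.TH268.PD.large_time d σ lam θ hd hσ hσd hlam hθ0
    obtain ⟨δ₁, hδ₁, C, hC, H⟩ := hfirst (min ε (η / 4)) (lt_min hε (by positivity))
    refine ⟨t₁, ht₁, fun t ht => ?_⟩
    have ht0 : 0 < t := lt_of_lt_of_le ht₁ ht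
    obtain ⟨L1, hL1⟩ := hlarge t ht
    obtain ⟨L2, hL2⟩ := Pool.Agent.TH268.PD.far_rate d σ lam t
      (max C ((k : ℝ) ^ 2 / θ)) hd hσ hσd hlam ht0
    refine ⟨max L1 L2, fun L _ hL J hJ π => ?_⟩
    obtain ⟨κ, hκ, h1, h2, h3⟩ := hL2 L ((le_max_right _ _).trans hL) J hJ
    obtain ⟨δ, h4, h5, h6⟩ := H _ J κ t ht0 hκ h1 hJ.2.1 ((le_max_left _ _).trans h3)
      ((le_max_left _ _).trans h2)
    have h7 := hL1 L ((le_max_left _ _).trans hL) J hJ
    obtain ⟨N, hN⟩ : ∃ N : ℝ, N = Fintype.card (Fin d → ZMod L) := ⟨_, rfl⟩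
    have hN0 : 0 < N := by
      have := lt_of_lt_of_le hC ((le_max_left _ _).trans h3)
      rw [hN]
      exact this
    have hδε : δ ≤ ε := h5.trans (min_le_left _ _)
    have hδη : δ ≤ η / 4 := h5.trans (min_le_right _ _)
    have hJn : ∀ x y, 0 ≤ J x y := fun x y => by
      by_cases hxy : x = y
      · rw [hxy, hJ.2.1]
      · exact hκ.le.trans (h1 x y hxy)
    have hm := Pool.Agent.W29.LR.CV.stirMass_nonneg J hJn t ht0.le
    have hZ0 : 0 < ∑ h, Pool.Agent.W805.LR.stirMass J t h := by
      rw [Pool.Agent.W805.LR.sum_mass J t]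
      exact Real.exp_pos _
    have hlaw0 : ∀ g, 0 ≤ Pool.Agent.TH268.PD.law J t g := fun g => div_nonneg (hm g) hZ0.le
    have hlaw1 : ∑ g, Pool.Agent.TH268.PD.law J t g = 1 := by
      unfold Pool.Agent.TH268.PD.law
      rw [← Finset.sum_div, div_self hZ0.ne']
    -- the fraction of the tuples with a point in a short cycle
    obtain ⟨sh, hsh⟩ : ∃ sh : Perm (Fin d → ZMod L) → ℝ, sh = fun g =>
      (Pool.Agent.W805.LR.cnt fun v => Pool.Agent.W805.LR.len g v <
        ε * Fintype.card (Fin d → ZMod L)) / N := ⟨_, rfl⟩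
    have hsh1 : ∑ g, Pool.Agent.TH268.PD.law J t g * sh g ≤ θ := by
      rw [hsh]
      simp only [mul_div_assoc']
      rw [← Finset.sum_div, div_le_iff₀ hN0, hN]
      exact h7
    have hbadN : ∀ g : Perm (Fin d → ZMod L),
        (Nat.card {b : Fin k → (Fin d → ZMod L) // ¬ ∀ i, δ * Fintype.card (Fin d → ZMod L) ≤
          Pool.Agent.W805.LR.len g (b i)} : ℝ) / N ^ k ≤ k * sh g := by
      intro g
      rcases Nat.eq_zero_or_pos k with hk | hk
      · subst hk
        have : IsEmpty {b : Fin 0 → (Fin d → ZMod L) // ¬ ∀ i,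
            δ * Fintype.card (Fin d → ZMod L) ≤ Pool.Agent.W805.LR.len g (b i)} :=
          ⟨fun b => b.2 fun i => i.elim0⟩
        simp
      · have h8 := Pool.Agent.TH268.PD.short_tup k (δ * Fintype.card (Fin d → ZMod L)) g
        rw [div_le_iff₀ (by positivity)]
        refine h8.trans ?_
        rw [hsh, ← hN]
        have h9 : N ^ k = N ^ (k - 1) * N := by rw [← pow_succ]; congr 1; omega
        rw [h9]
        have h10 : (k : ℝ) * ((Pool.Agent.W805.LR.cnt fun v => Pool.Agent.W805.LR.len g v <
            ε * N) / N) * (N ^ (k - 1) * N) = k * ((Pool.Agent.W805.LR.cnt fun v =>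
              Pool.Agent.W805.LR.len g v < ε * N) * N ^ (k - 1)) := by
          field_simp
        rw [h10]
        refine mul_le_mul_of_nonneg_left (mul_le_mul_of_nonneg_right ?_ (by positivity))
          (by positivity)
        rw [Pool.Agent.TH268.PD.Bad.cnt_eq, Pool.Agent.TH268.PD.Bad.cnt_eq]
        refine Nat.cast_le.2 (Finset.card_le_card fun v hv => ?_)
        rw [Finset.mem_filter] at hv ⊢
        exact ⟨hv.1, hv.2.trans_le (mul_le_mul_of_nonneg_right hδε hN0.le)⟩
    -- comparison of the two scales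
    have hA : ∀ g, inducedProb k 0 π g - k * sh g ≤ inducedProb k δ π g ∧
        inducedProb k δ π g ≤ inducedProb k 0 π g := by
      intro g
      have hlen0 : ∀ v, (0 : ℝ) * Fintype.card (Fin d → ZMod L) ≤ (cycleLen g v : ℝ) := fun v => by
        rw [zero_mul]; positivity
      constructor
      · rw [sub_le_iff_le_add]
        refine le_trans ?_ (add_le_add_right (hbadN g) _)
        unfold inducedProb
        rw [← hN, ← add_div]
        refine div_le_div_of_nonneg_right ?_ (by positivity)
        rw [← Nat.cast_add]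
        refine Nat.cast_le.2 ?_
        simp only [Nat.card_eq_fintype_card, Fintype.card_subtype]
        refine le_trans (Finset.card_le_card ?_) (Finset.card_union_le _ _)
        intro b hb
        rw [Finset.mem_filter] at hb
        rw [Finset.mem_union, Finset.mem_filter, Finset.mem_filter]
        by_cases hl : ∀ i, δ * N ≤ cycleLen g (b i)
        · exact Or.inl ⟨Finset.mem_univ _, hb.2.1, hl, hb.2.2.2⟩
        · refine Or.inr ⟨Finset.mem_univ _, ?_⟩
          simp only [len_eq, ← hN]
          exact hl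
      · unfold inducedProb
        refine div_le_div_of_nonneg_right ?_ (by rw [← hN]; positivity)
        refine Nat.cast_le.2 ?_
        simp only [Nat.card_eq_fintype_card, Fintype.card_subtype]
        refine Finset.card_le_card fun b hb => ?_
        rw [Finset.mem_filter] at hb ⊢
        exact ⟨hb.1, hb.2.1, fun i => hlen0 _, hb.2.2.2⟩
    have hB : ∀ g, 1 - k * sh g - (k : ℝ) ^ 2 / N ≤ longProb k δ g ∧ longProb k δ g ≤ 1 := by
      intro g
      have hall : (Fintype.card (Fin k → (Fin d → ZMod L)) : ℝ) = N ^ k := by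
        rw [Fintype.card_fun, Fintype.card_fin, hN]
        push_cast
        rfl
      constructor
      · have h8 : (1 : ℝ) ≤ longProb k δ g + ((Nat.card {b : Fin k → (Fin d → ZMod L) // ¬ ∀ i,
            δ * Fintype.card (Fin d → ZMod L) ≤ Pool.Agent.W805.LR.len g (b i)} : ℝ) / N ^ k +
            (Nat.card {b : Fin k → (Fin d → ZMod L) // ¬ Function.Injective b} : ℝ) / N ^ k) := by
          unfold longProb
          rw [← hN, ← add_div, ← add_div, le_div_iff₀ (by positivity), one_mul, ← hall]
          rw [← Nat.cast_add, ← Nat.cast_add]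
          refine Nat.cast_le.2 ?_
          simp only [Nat.card_eq_fintype_card, Fintype.card_subtype]
          rw [← Finset.card_univ]
          refine le_trans (Finset.card_le_card (t := _ ∪ (_ ∪ _)) ?_)
            ((Finset.card_union_le _ _).trans (add_le_add_right (Finset.card_union_le _ _) _))
          intro b _
          rw [Finset.mem_union, Finset.mem_union, Finset.mem_filter, Finset.mem_filter,
            Finset.mem_filter]
          by_cases hi : Function.Injective b
          · by_cases hl : ∀ i, δ * N ≤ cycleLen g (b i)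
            · exact Or.inl ⟨Finset.mem_univ _, hi, hl⟩
            · refine Or.inr (Or.inl ⟨Finset.mem_univ _, ?_⟩)
              simp only [len_eq, ← hN]
              exact hl
          · exact Or.inr (Or.inr ⟨Finset.mem_univ _, hi⟩)
        have h9 := hbadN g
        have h10 : (Nat.card {b : Fin k → (Fin d → ZMod L) // ¬ Function.Injective b} : ℝ) / N ^ k
            ≤ (k : ℝ) ^ 2 / N := by
          rcases Nat.eq_zero_or_pos k with hk | hk
          · subst hk
            have : IsEmpty {b : Fin 0 → (Fin d → ZMod L) // ¬ Function.Injective b} :=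
              ⟨fun b => b.2 fun i => i.elim0⟩
            simp
          · have h11 := Pool.Agent.TH268.PD.card_noninj (V := Fin d → ZMod L) k
            rw [← hN] at h11
            rw [div_le_div_iff₀ (by positivity) hN0]
            have h12 : N ^ k = N ^ (k - 1) * N := by rw [← pow_succ]; congr 1; omega
            rw [h12, ← mul_assoc]
            exact mul_le_mul_of_nonneg_right h11 hN0.le
        linarith
      · unfold longProb
        rw [← hN, div_le_one (by positivity), ← hall]
        refine Nat.cast_le.2 ?_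
        rw [← Nat.card_eq_fintype_card]
        exact Nat.card_le_card_of_injective _ Subtype.val_injective
    -- expectations
    have hE : ∀ F G : Perm (Fin d → ZMod L) → ℝ, (∀ g, F g ≤ G g) →
        ∑ g, Pool.Agent.TH268.PD.law J t g * F g ≤ ∑ g, Pool.Agent.TH268.PD.law J t g * G g :=
      fun F G h => Finset.sum_le_sum fun g _ => mul_le_mul_of_nonneg_left (h g) (hlaw0 g)
    have hA1 := hE (fun g => inducedProb k 0 π g - k * sh g) (inducedProb k δ π) fun g => (hA g).1
    have hA2 := hE (inducedProb k δ π) (inducedProb k 0 π) fun g => (hA g).2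
    have hB1 := hE (fun g => 1 - k * sh g - (k : ℝ) ^ 2 / N) (longProb k δ) fun g => (hB g).1
    have hB2 := hE (longProb k δ) (fun _ => 1) fun g => (hB g).2
    have e1 : ∑ g, Pool.Agent.TH268.PD.law J t g * (inducedProb k 0 π g - k * sh g) =
        ∑ g, Pool.Agent.TH268.PD.law J t g * inducedProb k 0 π g -
          k * ∑ g, Pool.Agent.TH268.PD.law J t g * sh g := by
      rw [Finset.mul_sum, ← Finset.sum_sub_distrib]
      exact Finset.sum_congr rfl fun g _ => by ring
    have e2 : ∑ g, Pool.Agent.TH268.PD.law J t g * (1 - k * sh g - (k : ℝ) ^ 2 / N) =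
        1 - k * ∑ g, Pool.Agent.TH268.PD.law J t g * sh g - (k : ℝ) ^ 2 / N := by
      have : ∀ g, Pool.Agent.TH268.PD.law J t g * (1 - k * sh g - (k : ℝ) ^ 2 / N) =
          Pool.Agent.TH268.PD.law J t g * (1 - (k : ℝ) ^ 2 / N) -
            k * (Pool.Agent.TH268.PD.law J t g * sh g) := fun g => by ring
      rw [Finset.sum_congr rfl fun g _ => this g, Finset.sum_sub_distrib, ← Finset.sum_mul,
        ← Finset.mul_sum, hlaw1]
      ring
    simp only [mul_one] at hB2
    rw [e1] at hA1
    rw [e2] at hB1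
    rw [hlaw1] at hB2
    rw [stir_eq]
    have h8 := h6 π
    rw [stir_eq, stir_eq] at h8
    have hkθ : (k : ℝ) * ∑ g, Pool.Agent.TH268.PD.law J t g * sh g ≤ η / 4 := by
      have h9 : (k : ℝ) * ∑ g, Pool.Agent.TH268.PD.law J t g * sh g ≤ k * θ :=
        mul_le_mul_of_nonneg_left hsh1 (by positivity)
      have h10 : 4 * (k + 1 : ℝ) * θ = η := by rw [hθ]; field_simp
      have h11 : (k : ℝ) * θ ≤ (k + 1) * θ := by nlinarith
      nlinarith
    have hkN : (k : ℝ) ^ 2 / N ≤ η / 4 := by
      have h9 : (k : ℝ) ^ 2 / θ ≤ N := by rw [hN]; exact (le_max_right _ _).trans h3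
      rw [div_le_iff₀ hθ0] at h9
      rw [div_le_iff₀ hN0]
      have h10 : θ ≤ η / 4 := by
        rw [hθ]
        refine div_le_div_of_nonneg_left hη.le (by norm_num) ?_
        have : (0 : ℝ) ≤ k := by positivity
        linarith
      have := mul_le_mul_of_nonneg_left h10 hN0.le
      linarith
    have hf : (1 : ℝ) ≤ (k.factorial : ℝ) := by exact_mod_cast k.factorial_pos
    obtain ⟨A0, hA0⟩ : ∃ A0, A0 = ∑ g, Pool.Agent.TH268.PD.law J t g * inducedProb k 0 π g :=
      ⟨_, rfl⟩
    obtain ⟨Aδ, hAδ⟩ : ∃ Aδ, Aδ = ∑ g, Pool.Agent.TH268.PD.law J t g * inducedProb k δ π g :=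
      ⟨_, rfl⟩
    obtain ⟨B, hBdef⟩ : ∃ B, B = ∑ g, Pool.Agent.TH268.PD.law J t g * longProb k δ g := ⟨_, rfl⟩
    rw [← hA0, ← hAδ] at hA1 hA2
    rw [← hBdef] at hB1 hB2
    rw [← hAδ, ← hBdef] at h8
    rw [← hA0]
    have h9 : |B / k.factorial - 1 / (k.factorial : ℝ)| ≤ η / 2 := by
      rw [← sub_div, abs_div, abs_of_pos (show (0 : ℝ) < k.factorial by linarith)]
      have h10 : |B - 1| ≤ η / 2 := by rw [abs_le]; constructor <;> linarith
      exact (div_le_self (abs_nonneg _) hf).trans h10
    have h10 : min ε (η / 4) ≤ η / 4 := min_le_right _ _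
    rw [abs_le] at h8 h9 ⊢
    constructor <;> linarith [h8.1, h8.2, h9.1, h9.2]

end Pool.Agent.TH268.Old.MacroscopicCyclesLaw
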